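import Pool.Agent.Helper98.EQ.Goals

/-!
# Packet TRZ of project EQ: the trace of `z π`
-/

set_option autoImplicit false

namespace Pool.Agent.Helper9.EQ.TRZ

open IsLocalRing Pool.Agent.Helper98.EQ

open scoped IsMulCommutative in
/-- powers in a ring where `u` commutes with `x` -/
theorem pw {A : Type} [Ring A] (p : ℕ) (x u : A) (hc : x * u = u * x)
    (h : x * x = x + (p : A) * u) (s : ℕ) :
    ∃ v : A, (x ^ p ^ s) * (x ^ p ^ s) = x ^ p ^ s + (p : A) ^ (s + 1) * v := by
  have hcomm : ∀ a ∈ ({x, u} : Set A), ∀ b ∈ ({x, u} : Set A), a * b = b * a := by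
    intro a ha b hb
    simp only [Set.mem_insert_iff, Set.mem_singleton_iff] at ha hb
    rcases ha with rfl | rfl <;> rcases hb with rfl | rfl
    · rfl
    · exact hc
    · exact hc.symm
    · rfl
  let S := Subring.closure ({x, u} : Set A)
  have hcm : IsMulCommutative S := Subring.isMulCommutative_closure hcomm
  let x' : S := ⟨x, Subring.subset_closure (by simp)⟩
  let u' : S := ⟨u, Subring.subset_closure (by simp)⟩
  have h1 : (p : S) ∣ x' * x' - x' := by
    refine ⟨u', ?_⟩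
    apply Subtype.ext
    show x * x - x = (((p : S) * u' : S) : A)
    rw [h, add_sub_cancel_left]
    push_cast
    rfl
  obtain ⟨v, hv⟩ := dvd_sub_pow_of_dvd_sub h1 s
  refine ⟨(v : A), ?_⟩
  have h2 := congrArg (Subtype.val : S → A) hv
  have h3 : (((x' * x') ^ p ^ s - x' ^ p ^ s : S) : A) = (x * x) ^ p ^ s - x ^ p ^ s := rfl
  have h4 : ((((p : S) ^ (s + 1)) * v : S) : A) = (p : A) ^ (s + 1) * (v : A) := by
    push_cast
    rfl
  have h5 : (x * x) ^ p ^ s - x ^ p ^ s = (p : A) ^ (s + 1) * (v : A) := by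
    rw [← h3, ← h4]
    exact h2
  rw [← h5, ← (Commute.refl x).mul_pow]
  abel


/-- the local ring `R / (p^(s+1))` -/
theorem step (hI : S_IDR) (p : ℕ) (hp : p.Prime) (R : Type) [CommRing R] [IsLocalRing R]
    (hm : maximalIdeal R = Ideal.span {(p : R)}) (Y : Type) [Fintype Y] [DecidableEq Y]
    (Qz U : Matrix Y Y R) (h : Qz * Qz = Qz + (p : Matrix Y Y R) * U) (hc : Qz * U = U * Qz) (s : ℕ) :
    ∃ c : R, (Qz ^ p ^ s).trace = (((Qz.map (residue R)).rank : ℕ) : R) + (p : R) ^ (s + 1) * c := by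
  obtain ⟨V, hV⟩ := pw p Qz U hc h s
  let J : Ideal R := Ideal.span {(p : R) ^ (s + 1)}
  have hJ : J ≤ maximalIdeal R := by
    rw [hm]
    refine (Ideal.span_singleton_le_span_singleton).2 ?_
    exact dvd_pow_self _ (Nat.succ_ne_zero s)
  have hJt : J ≠ ⊤ := fun e => (maximalIdeal.isMaximal R).ne_top (top_le_iff.1 (e ▸ hJ))
  have : Nontrivial (R ⧸ J) := Ideal.Quotient.nontrivial_iff.2 hJt
  have : IsLocalRing (R ⧸ J) := IsLocalRing.of_surjective' (Ideal.Quotient.mk J)
    Ideal.Quotient.mk_surjective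
  let Q : Matrix Y Y (R ⧸ J) := (Qz ^ p ^ s).map (Ideal.Quotient.mk J)
  have hpJ : (Ideal.Quotient.mk J) ((p : R) ^ (s + 1)) = 0 :=
    Ideal.Quotient.eq_zero_iff_mem.2 (Ideal.mem_span_singleton_self _)
  have hQ : Q * Q = Q := by
    show (Qz ^ p ^ s).map (Ideal.Quotient.mk J) * (Qz ^ p ^ s).map (Ideal.Quotient.mk J) = _
    rw [← Matrix.map_mul, hV]
    have e1 : (p : Matrix Y Y R) ^ (s + 1) * V = ((p : R) ^ (s + 1)) • V := by
      rw [← Nat.cast_pow, ← Nat.cast_pow, ← nsmul_eq_mul, Nat.cast_smul_eq_nsmul]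
    rw [e1]
    ext a b
    show (Ideal.Quotient.mk J) ((Qz ^ p ^ s) a b + ((p : R) ^ (s + 1)) * V a b) =
      (Ideal.Quotient.mk J) ((Qz ^ p ^ s) a b)
    rw [map_add, map_mul, hpJ, zero_mul, add_zero]
  obtain ⟨m, hm1, hm2⟩ := hI (R ⧸ J) Y Q hQ
  let f : R ⧸ J →+* ResidueField R := Ideal.Quotient.lift J (residue R) (fun a ha =>
    (residue_eq_zero_iff a).2 (hJ ha))
  have hf : Q.map f = (Qz.map (residue R)) ^ p ^ s := by
    have e2 : Q.map f = (Qz ^ p ^ s).map (residue R) := by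
      ext a b
      rfl
    rw [e2]
    exact map_pow (RingHom.mapMatrix (residue R)) Qz (p ^ s)
  have hid : IsIdempotentElem (Qz.map (residue R)) := by
    show Qz.map (residue R) * Qz.map (residue R) = Qz.map (residue R)
    rw [← Matrix.map_mul, h]
    have e1 : (p : Matrix Y Y R) * U = (p : R) • U := by
      rw [← nsmul_eq_mul, Nat.cast_smul_eq_nsmul]
    rw [e1]
    ext a b
    show (residue R) (Qz a b + (p : R) * U a b) = (residue R) (Qz a b)
    have hp0 : (residue R) (p : R) = 0 := (residue_eq_zero_iff _).2 (by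
      rw [hm]
      exact Ideal.mem_span_singleton_self _)
    rw [map_add, map_mul, hp0, zero_mul, add_zero]
  have hr : (Qz.map (residue R)).rank = m := by
    rw [← hm2 (ResidueField R) f, hf, hid.pow_eq (pow_ne_zero _ hp.ne_zero)]
  have hz : (Ideal.Quotient.mk J) ((Qz ^ p ^ s).trace - (m : R)) = 0 := by
    rw [map_sub, map_natCast, ← hm1]
    have e3 : Q.trace = (Ideal.Quotient.mk J) ((Qz ^ p ^ s).trace) := by
      show ∑ a, (Ideal.Quotient.mk J) ((Qz ^ p ^ s) a a) = _
      rw [← map_sum]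
      rfl
    rw [e3, sub_self]
  obtain ⟨c, hc⟩ := Ideal.mem_span_singleton.1 (Ideal.Quotient.eq_zero_iff_mem.1 hz)
  refine ⟨c, ?_⟩
  rw [hr, ← hc]
  ring

theorem t (hO : S_ORB) (hP : S_PATH) (hI : S_IDR) : S_TRZ := by
  intro p hp R _ _ _ _ hchar hm X _ _ z k hz π hπ hinv
  have hpp : p.Prime := hp.out
  have hp0 : (p : R) ≠ 0 := Nat.cast_ne_zero.2 hpp.ne_zero
  let Y := {x // z x = x}
  let Qz : Matrix Y Y R := π.submatrix (Subtype.val : Y → X) Subtype.val
  -- step 1
  have h1 : ∀ x y : Y, ∃ c : R, (Qz * Qz) x y = Qz x y + (p : R) * c := by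
    intro x y
    obtain ⟨c, hc⟩ := hO p R X z k 0 hz (fun w => π x.1 w * π w y.1) (by
      intro w
      show π x.1 (z w) * π (z w) y.1 = π x.1 w * π w y.1
      have e1 : π x.1 (z w) = π x.1 w := by
        have := hinv x.1 w
        rwa [x.2] at this
      have e2 : π (z w) y.1 = π w y.1 := by
        have := hinv w y.1
        rwa [y.2] at this
      rw [e1, e2])
    rw [pow_zero, pow_one, zero_add, pow_one] at hc
    have e3 : π x.1 y.1 = ∑ w, π x.1 w * π w y.1 := by
      conv_lhs => rw [← hπ]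
      rfl
    have e4 : ∑ w, π x.1 w * π w y.1 =
        ∑ w ∈ Finset.univ.filter (fun w => z w = w), π x.1 w * π w y.1 +
        ∑ w ∈ Finset.univ.filter (fun w => z w ≠ w), π x.1 w * π w y.1 :=
      (Finset.sum_filter_add_sum_filter_not _ _ _).symm
    have e5 : (Qz * Qz) x y = ∑ w ∈ Finset.univ.filter (fun w => z w = w), π x.1 w * π w y.1 := by
      show ∑ w : Y, π x.1 w.1 * π w.1 y.1 = _
      exact (Finset.sum_subtype _ (by intro w; simp) (fun w => π x.1 w * π w y.1)).symm
    refine ⟨-c, ?_⟩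
    show _ = π x.1 y.1 + _
    rw [e3, e4, hc, e5]
    ring
  choose U hU using h1
  have hU' : Qz * Qz = Qz + (p : Matrix Y Y R) * Matrix.of U := by
    have e1 : (p : Matrix Y Y R) * Matrix.of U = (p : R) • Matrix.of U := by
      rw [← nsmul_eq_mul, Nat.cast_smul_eq_nsmul]
    rw [e1]
    ext x y
    exact hU x y
  have hcU : Qz * Matrix.of U = Matrix.of U * Qz := by
    have e1 : (p : Matrix Y Y R) * Matrix.of U = (p : R) • Matrix.of U := by
      rw [← nsmul_eq_mul, Nat.cast_smul_eq_nsmul]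
    rw [e1] at hU'
    have e2 : (p : R) • (Qz * Matrix.of U) = (p : R) • (Matrix.of U * Qz) := by
      rw [← Matrix.mul_smul, ← Matrix.smul_mul]
      have e3 : (p : R) • Matrix.of U = Qz * Qz - Qz := by
        rw [hU', add_sub_cancel_left]
      rw [e3, mul_sub, sub_mul, mul_assoc]
    ext x y
    have e4 := congrFun (congrFun e2 x) y
    exact mul_left_cancel₀ hp0 e4
  refine ⟨(Qz.map (residue R)).rank, ?_, ?_⟩
  · rw [← sub_eq_zero]
    have hH : IsHausdorff (maximalIdeal R) R := inferInstance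
    refine hH.haus _ fun s => ?_
    rw [SModEq.zero, smul_eq_mul, Ideal.mul_top]
    have hpow : π ^ p ^ s = π := IsIdempotentElem.pow_eq hπ (pow_ne_zero _ hpp.ne_zero)
    obtain ⟨c, hc⟩ := hP p R X z k s hz π hinv
    obtain ⟨c', hc'⟩ := step hI p hpp R hm Y Qz (Matrix.of U) hU' hcU s
    rw [hpow] at hc
    have e : ∑ x, π x (z x) - (((Qz.map (residue R)).rank : ℕ) : R) = (p : R) ^ s * (p * (c + c')) := by
      rw [hc]
      have hc2 : ((π.submatrix (Subtype.val : {x // z x = x} → X) Subtype.val) ^ p ^ s).trace =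
        (((Qz.map (residue R)).rank : ℕ) : R) + (p : R) ^ (s + 1) * c' := hc'
      rw [hc2]
      ring
    rw [e]
    refine Ideal.mul_mem_right _ _ (Ideal.pow_mem_pow ?_ s)
    rw [hm]
    exact Ideal.mem_span_singleton_self _
  · rintro ⟨x, hx, hx2⟩
    rw [Nat.one_le_iff_ne_zero]
    intro h0
    have h2 : (Qz.map (residue R)).mulVecLin = 0 := by
      rw [← LinearMap.range_eq_bot]
      exact Submodule.finrank_eq_zero.1 h0
    have h3 : (Qz.map (residue R)).mulVec (Pi.single (⟨x, hx⟩ : Y) 1) = 0 := by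
      have := congrArg (fun g => g (Pi.single (⟨x, hx⟩ : Y) 1)) h2
      exact this
    have h4 := congrFun h3 (⟨x, hx⟩ : Y)
    rw [Matrix.mulVec_single_one] at h4
    exact hx2 h4

end Pool.Agent.Helper9.EQ.TRZ
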